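import Pool.Agent.Y987.NV.KsepA
import Pool.Agent.Y63.NV.Stm6

/-!
Project NV, KSEP: the central idempotent of a character of defect zero, reduced modulo `p`.
-/

open scoped Classical

noncomputable section

namespace Pool.Agent.Y987.NV

open Pool.Agent.Y63.AWC (IsIrreducibleCharacter DZ)
open Pool.Agent.Y63.NV
open Pool.Agent.Y657.NV

theorem ksep : S_KSEP := by
  intro p _ F _ _ red G _ _ χ₀ hw
  have hd : DZ p χ₀ := by
    obtain ⟨n, hn, h⟩ := hw.defectZero
    refine ⟨n, hn, ?_⟩
    rw [Subgroup.card_bot, Nat.factorization_one] at h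
    simpa using h
  let _ : Fintype G := Fintype.ofFinite G
  obtain ⟨f, h1, h2, h3⟩ := core red hw.irr hd
  refine ⟨f, h1, fun x hx => h2 x hx, fun χ hχ => ?_⟩
  rw [h3 χ hχ]
  by_cases he : χ = χ₀
  · simp [he]
  · simp [he]

end Pool.Agent.Y987.NV
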