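import Pool.Agent.Y657.NV.Frob

/-!
Project NV, KSEP: the central idempotent of a character of defect zero, reduced modulo `p`.
-/

open scoped Classical

noncomputable section

namespace Pool.Agent.Y987.NV

open Pool.Agent.Y63.AWC (IsIrreducibleCharacter DZ isIntegral_char)
open Pool.Agent.Y63.NV
open Pool.Agent.Y657.NV
open Pool.Agent.Y930.NV (redC_of redC_add redC_mul redC_zero redC_one int_intCast redC_intCast
  redC_sum Cf ind mk_conj Cf_ind mk_out Cf_out irr_Cf R centralValue_eq)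

theorem core {G : Type} [Group G] [Fintype G] {F : Type} [Field F]
    (red : integralClosure ℤ ℂ →+* F) {p : ℕ} [hp : Fact p.Prime] [CharP F p] {χ₀ : G → ℂ}
    (h : IsIrreducibleCharacter χ₀) (hd : DZ p χ₀) :
    ∃ f : G → F, IsClassFun f ∧ (∀ x, p ∣ cc x → f x = 0) ∧
      ∀ χ : G → ℂ, IsIrreducibleCharacter χ →
        centralValue red χ f = if χ = χ₀ then 1 else 0 := by
  have hm := mF_ne red h hd
  refine ⟨fun x => (mF red χ₀)⁻¹ * rr red χ₀ x⁻¹, ?_, ?_, ?_⟩
  · intro g x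
    have e : (g * x * g⁻¹)⁻¹ = g * x⁻¹ * g⁻¹ := by group
    show (mF red χ₀)⁻¹ * rr red χ₀ (g * x * g⁻¹)⁻¹ = (mF red χ₀)⁻¹ * rr red χ₀ x⁻¹
    rw [e]
    unfold rr
    rw [irr_Cf h]
  · intro x hx
    show (mF red χ₀)⁻¹ * rr red χ₀ x⁻¹ = 0
    rw [rr_zero red h hd (by rw [cc_inv]; exact hx), mul_zero]
  · intro χ hχ
    rw [centralValue_eq red hχ]
    have h1 := lam_orth red h hχ
    unfold lam at h1
    have h2 : ∑ C : ConjClasses G, (mF red χ₀)⁻¹ * rr red χ₀ C.out⁻¹ * R red χ (ind ℤ C) =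
        (mF red χ₀)⁻¹ * ∑ C : ConjClasses G, rr red χ₀ C.out⁻¹ * R red χ (ind ℤ C) := by
      rw [Finset.mul_sum]
      exact Finset.sum_congr rfl fun C _ => mul_assoc _ _ _
    rw [h2, h1]
    by_cases he : χ = χ₀
    · rw [if_pos he.symm, if_pos he, he, inv_mul_cancel₀ hm]
    · rw [if_neg (fun h => he h.symm), if_neg he, mul_zero]

end Pool.Agent.Y987.NV
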